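import Pool.Agent.H19.SYA.TA

/-!
# Row CCL of sya_modules: the cell of a chart
-/

set_option autoImplicit false

namespace Pool.Agent.H46.SYA

open MvPolynomial Pool.Agent.H2.ST Pool.Agent.H15.TG Pool.Agent.H19.SYA

/-- elements which become polynomial after multiplication by a power of `d` are closed under
finite sums -/
theorem ccl_sum {k L A ι : Type} [Field k] [Field L] [Algebra k L] [CommRing A] [Algebra k A]
    (Θ : A →ₐ[k] L) (v : Fin 3 → L) (s : Finset ι) (F : ι → A)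
    (hF : ∀ i ∈ s, ∃ (N : ℕ) (P : MvPolynomial (Fin 3) k), Θ (F i) * v 0 ^ N = aeval v P) :
    ∃ (N : ℕ) (P : MvPolynomial (Fin 3) k), Θ (∑ i ∈ s, F i) * v 0 ^ N = aeval v P := by
  classical
  refine Finset.sum_induction F
    (fun G => ∃ (N : ℕ) (P : MvPolynomial (Fin 3) k), Θ G * v 0 ^ N = aeval v P) ?_ ?_ hF
  · rintro a b ⟨N, P, hP⟩ ⟨M, Q, hQ⟩
    refine ⟨N + M, P * X 0 ^ M + Q * X 0 ^ N, ?_⟩
    rw [map_add, map_add, map_mul, map_mul, map_pow, map_pow, aeval_X, ← hP, ← hQ]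
    ring
  · exact ⟨0, 0, by rw [map_zero, map_zero, zero_mul]⟩

theorem pf_CCL : Pool.Agent.H19.SYA.T_CCL := by
  intro k _ _ _ W H g f α β L _ _ Θ v wr m hW h F c j hc hF hd
  have hprod : (∏ l : Fin 1, (v ((fun _ : Fin 1 => (0 : Fin 3)) l) -
      algebraMap k L ((fun _ : Fin 1 => (0 : k)) l))) = v 0 := by
    rw [Fin.prod_univ_one, map_zero, sub_zero]
  refine ⟨h.ind, ?_, ?_, ?_⟩
  · intro s
    rw [hprod]
    have h1 := cmp_sum hW.toGr (X s : Pol k 2)
    have h2 : ∃ (N : ℕ) (P : MvPolynomial (Fin 3) k),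
        Θ (∑ n ∈ (cmp hW.toGr (X s : Pol k 2)).support, cmp hW.toGr (X s : Pol k 2) n) *
          v 0 ^ N = aeval v P := by
      refine ccl_sum Θ v _ _ ?_
      intro n _
      obtain ⟨N, P, hP, _⟩ := h.img n _ (cmp_mem hW.toGr (X s : Pol k 2) n)
      exact ⟨N, P, hP⟩
    have h3 : (∑ n ∈ (cmp hW.toGr (X s : Pol k 2)).support, cmp hW.toGr (X s : Pol k 2) n) =
        (X s : Pol k 2) := h1
    rw [h3] at h2
    exact h2
  · rw [hprod]
    refine ⟨j, C c⁻¹, ?_⟩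
    have hc' : algebraMap k L c * algebraMap k L c⁻¹ = 1 := by
      rw [← map_mul, mul_inv_cancel₀ hc, map_one]
    rw [hF, aeval_C]
    linear_combination v 0 ^ j * hc'
  · intro i
    obtain ⟨N, n, G, _, hG⟩ := h.inv i
    obtain ⟨N', x, hx⟩ := hd
    refine ⟨N' * N, G * x ^ N, ?_⟩
    rw [pow_mul, ← map_pow Θ F N', hx, map_mul, map_mul, map_pow, mul_pow, ← hG]
    ring

end Pool.Agent.H46.SYA
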