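import Pool.Agent.H19.SYA.TB

/-!
# Row POT of sya_modules: the potential
-/

set_option autoImplicit false

namespace Pool.Agent.H46.SYA

open MvPolynomial Pool.Agent.H2.ST Pool.Agent.H15.TG Pool.Agent.H19.SYA

/-! ### formal integration -/

section integration

variable {k : Type} [Field k] {σ : Type}

/-- formal integration in the variable `i` -/
noncomputable def Jn (i : σ) : MvPolynomial σ k →ₗ[k] MvPolynomial σ k :=
  (MvPolynomial.basisMonomials σ k).constr k
    (fun m => monomial (m + Finsupp.single i 1) (((m i : k) + 1)⁻¹))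

theorem Jn_mon (i : σ) (m : σ →₀ ℕ) :
    Jn i (monomial m (1 : k)) = monomial (m + Finsupp.single i 1) (((m i : k) + 1)⁻¹) := by
  have h := (MvPolynomial.basisMonomials σ k).constr_basis k
    (fun m => monomial (m + Finsupp.single i 1) (((m i : k) + 1)⁻¹)) m
  rw [MvPolynomial.coe_basisMonomials] at h
  exact h

theorem mon_one (m : σ →₀ ℕ) (c : k) : monomial m c = c • monomial m (1 : k) := by
  rw [smul_monomial, smul_eq_mul, mul_one]

theorem pd_Jn [CharZero k] (i : σ) (P : MvPolynomial σ k) : pderiv i (Jn i P) = P := by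
  induction P using MvPolynomial.induction_on' with
  | monomial m c =>
    rw [mon_one, map_smul, Derivation.map_smul, Jn_mon, pderiv_monomial]
    congr 1
    have h1 : m + Finsupp.single i 1 - Finsupp.single i 1 = m := add_tsub_cancel_right _ _
    rw [h1]
    congr 1
    rw [Finsupp.add_apply, Finsupp.single_eq_same]
    push_cast
    have : ((m i : k) + 1) ≠ 0 := Nat.cast_add_one_ne_zero (m i)
    field_simp
  | add P Q hP hQ => rw [map_add, map_add, hP, hQ]

theorem pd_Jn_ne (i j : σ) (hij : j ≠ i) (P : MvPolynomial σ k) :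
    pderiv j (Jn i P) = Jn i (pderiv j P) := by
  classical
  induction P using MvPolynomial.induction_on' with
  | monomial m c =>
    rw [mon_one, map_smul, Derivation.map_smul, Jn_mon, pderiv_monomial, Derivation.map_smul,
      map_smul, pderiv_monomial, one_mul, mon_one (m - Finsupp.single j 1), map_smul, Jn_mon]
    congr 1
    by_cases h0 : m j = 0
    · rw [Finsupp.add_apply, Finsupp.single_eq_of_ne hij, h0]
      simp
    · have h1 : m + Finsupp.single i 1 - Finsupp.single j 1 =
          m - Finsupp.single j 1 + Finsupp.single i 1 := by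
        ext l
        simp only [Finsupp.tsub_apply, Finsupp.add_apply, Finsupp.single_apply]
        by_cases hl : j = l
        · subst hl
          rw [if_pos rfl, if_neg (Ne.symm hij)]
          omega
        · rw [if_neg hl]
          omega
      have h2 : (m - Finsupp.single j 1 : σ →₀ ℕ) i = m i := by
        rw [Finsupp.tsub_apply, Finsupp.single_eq_of_ne (Ne.symm hij)]
        rfl
      have h3 : (m + Finsupp.single i 1 : σ →₀ ℕ) j = m j := by
        rw [Finsupp.add_apply, Finsupp.single_eq_of_ne hij, add_zero]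
      rw [h1, h2, h3, smul_monomial, smul_eq_mul, mul_comm]
  | add P Q hP hQ => rw [map_add, map_add, hP, hQ, map_add, map_add]

theorem exists_int [CharZero k] (i : σ) (P : MvPolynomial σ k) :
    ∃ Q : MvPolynomial σ k, pderiv i Q = P ∧ ∀ j, j ≠ i → pderiv j P = 0 → pderiv j Q = 0 := by
  refine ⟨Jn i P, pd_Jn i P, fun j hj h => ?_⟩
  rw [pd_Jn_ne i j hj, h, map_zero]

end integration

/-! ### chain rule and components -/

section chain

variable {k : Type} [Field k]

theorem br_aeval (g : Pol k 2) {n : ℕ} (v : Fin n → Pol k 2) (P : MvPolynomial (Fin n) k) :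
    br g (aeval v P) = ∑ i, aeval v (pderiv i P) * br g (v i) := by
  induction P using MvPolynomial.induction_on with
  | C a =>
    rw [aeval_C]
    simp only [pderiv_C, map_zero, zero_mul, Finset.sum_const_zero]
    exact br_C g a
  | add P Q hP hQ =>
    rw [map_add, br_add, hP, hQ, ← Finset.sum_add_distrib]
    exact Finset.sum_congr rfl fun i _ => by rw [map_add, map_add, add_mul]
  | mul_X P j hP =>
    rw [map_mul, aeval_X, br_mul, hP, Finset.mul_sum]
    have h1 : ∀ i, aeval v (pderiv i (P * X j)) * br g (v i) =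
        (if i = j then aeval v P * br g (v j) else 0) +
          v j * (aeval v (pderiv i P) * br g (v i)) := by
      intro i
      rw [Derivation.leibniz, smul_eq_mul, smul_eq_mul, map_add, map_mul, map_mul, aeval_X]
      by_cases h : i = j
      · subst h
        rw [if_pos rfl, pderiv_X_self, map_one]
        ring
      · rw [if_neg h, pderiv_X_of_ne (Ne.symm h), map_zero]
        ring
    simp only [h1]
    rw [Finset.sum_add_distrib, Finset.sum_ite_eq' Finset.univ j, if_pos (Finset.mem_univ _)]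

theorem cmp_br {W : ℤ → Submodule k (Pol k 2)} (h : PGr W) {b : ℤ} {u : Pol k 2} (hu : u ∈ W b)
    (F : Pol k 2) (a : ℤ) : cmp h.toGr (br F u) (a + b) = br (cmp h.toGr F a) u := by
  classical
  let c : ℤ →₀ Pol k 2 := (cmp h.toGr F).sum fun a x => Finsupp.single (a + b) (br x u)
  have hc : ∀ a, c (a + b) = br (cmp h.toGr F a) u := by
    intro a
    simp only [c]
    rw [Finsupp.sum, Finsupp.finsetSum_apply]
    simp only [Finsupp.single_apply]
    rw [Finset.sum_eq_single a]
    · rw [if_pos rfl]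
    · intro a' _ ha'
      rw [if_neg (fun h => ha' (add_right_cancel h))]
    · intro ha
      rw [if_pos rfl, Finsupp.notMem_support_iff.1 ha, zero_br]
  have h1 : cmp h.toGr (br F u) = c := by
    refine cmp_uniq h.toGr _ c (fun a' => ?_) ?_
    · have := hc (a' - b)
      rw [sub_add_cancel] at this
      rw [this]
      have h2 := h.pbr _ _ _ _ (cmp_mem h.toGr F (a' - b)) hu
      rwa [sub_add_cancel] at h2
    · simp only [c]
      rw [Finsupp.sum_sum_index (fun _ => rfl) (fun _ _ _ => rfl)]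
      have h3 : ((cmp h.toGr F).sum fun a x =>
          (Finsupp.single (a + b) (br x u)).sum fun _ y => y) =
          (cmp h.toGr F).sum fun _ x => br x u := by
        refine Finsupp.sum_congr fun a _ => ?_
        rw [Finsupp.sum_single_index rfl]
      rw [h3]
      conv_rhs => rw [← cmp_sum h.toGr F]
      unfold Finsupp.sum
      rw [sum_br]
  rw [h1, hc]

theorem pick {W : ℤ → Submodule k (Pol k 2)} (h : PGr W) {a b : ℤ} {u v F : Pol k 2}
    (hu : u ∈ W b) (hv : v ∈ W (a + b)) (he : br F u = v) : br (cmp h.toGr F a) u = v := by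
  have h1 := cmp_br h hu F a
  rw [he, cmp_of_mem h.toGr hv, Finsupp.single_eq_same] at h1
  exact h1.symm

end chain

theorem pf_POT (hPAI : T_PAI) : T_POT := by
  intro k _ _ _ W H y wy p q S α β k1 D hy hpp hD1 hD2 hD3
  have hα : (α : k) ≠ 0 := by
    have := hpp.pa
    exact_mod_cast this.ne'
  have hp0 : p ≠ 0 := hpp.pg.ne_zero
  have hpq : br p q = 0 := hpp.gf
  have hpS : br p S = 0 := hpp.pS
  have hqS : br q S = p ^ k1 := by
    have := hpp.qS
    rw [pow_zero, mul_one] at this
    exact this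
  have hpH : br p H = C (α : k) * p := by
    rw [hy.HE α p hpp.hg, smul_eq_C_mul]
  have hqH : br q H = C (β : k) * q := by
    rw [hy.HE β q hpp.hf, smul_eq_C_mul]
  have hind : AlgebraicIndependent k ![p, q, H, S] := hPAI k W H y wy p q S α β k1 0 hy hpp.toPr
  have hinj : ∀ P : MvPolynomial (Fin 4) k, aeval ![p, q, H, S] P = 0 → P = 0 := by
    intro P hP
    exact (injective_iff_map_eq_zero _).1 hind P hP
  have hqp : br q p = 0 := by rw [br_anti, hpq, neg_zero]
  -- brackets with p, q, S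
  have bp : ∀ P : MvPolynomial (Fin 4) k, br p (aeval ![p, q, H, S] P) =
      C (α : k) * p * aeval ![p, q, H, S] (pderiv 2 P) := by
    intro P
    rw [br_aeval, Fin.sum_univ_four]
    simp only [Matrix.cons_val_zero, Matrix.cons_val_one, Matrix.cons_val]
    rw [br_self, hpq, hpH, hpS]
    ring
  have bq : ∀ P : MvPolynomial (Fin 4) k, br q (aeval ![p, q, H, S] P) =
      C (β : k) * q * aeval ![p, q, H, S] (pderiv 2 P) +
        p ^ k1 * aeval ![p, q, H, S] (pderiv 3 P) := by
    intro P
    rw [br_aeval, Fin.sum_univ_four]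
    simp only [Matrix.cons_val_zero, Matrix.cons_val_one, Matrix.cons_val]
    rw [br_self, hqp, hqH, hqS]
    ring
  have brpp : ∀ n : ℕ, br p (p ^ n) = 0 := by
    intro n
    rw [br_pow, br_self, mul_zero]
  have brqp : ∀ n : ℕ, br q (p ^ n) = 0 := by
    intro n
    rw [br_pow, hqp, mul_zero]
  have brSp : ∀ n : ℕ, br S (p ^ n) = 0 := by
    intro n
    rw [br_pow, br_anti, hpS, neg_zero, mul_zero]
  -- integration 1
  have I1 : ∀ X : Pol k 2, ∃ (M : ℕ) (G : Pol k 2), br G p = p ^ M * X := by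
    intro X
    obtain ⟨N, P, hP⟩ := hpp.ge1 X
    obtain ⟨Q, hQ, -⟩ := exists_int (2 : Fin 4) P
    refine ⟨N + 1, -(C (1 / (α : k)) * aeval ![p, q, H, S] Q), ?_⟩
    rw [neg_br, br_anti, neg_neg, br_mul, br_C, bp, hQ, ← hP]
    have h1 : C (1 / (α : k)) * C (α : k) = (1 : Pol k 2) := by
      rw [← C_mul, one_div, inv_mul_cancel₀ hα, C_1]
    linear_combination (p ^ (N + 1) * X) * h1
  have I2 : ∀ R : Pol k 2, br p R = 0 →
      ∃ (M : ℕ) (G : Pol k 2), br p G = 0 ∧ br G q = p ^ M * R := by
    intro R hR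
    obtain ⟨N, P, hP⟩ := hpp.ge1 R
    have h2 : pderiv 2 P = 0 := by
      apply hinj
      have h3 := bp P
      rw [← hP, br_mul, brpp, hR, mul_zero, mul_zero, add_zero] at h3
      have h4 : C (α : k) * p ≠ 0 := mul_ne_zero (by simpa using hα) hp0
      exact (mul_eq_zero.1 h3.symm).resolve_left h4
    obtain ⟨Q, hQ, hQ2⟩ := exists_int (3 : Fin 4) P
    have h5 := hQ2 2 (by decide) h2
    refine ⟨k1 + N, -(aeval ![p, q, H, S] Q), ?_, ?_⟩
    · rw [br_neg, bp, h5, map_zero, mul_zero, neg_zero]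
    · rw [neg_br, br_anti, neg_neg, bq, h5, hQ, ← hP, map_zero]
      ring
  have I3 : ∀ R : Pol k 2, br p R = 0 → br q R = 0 →
      ∃ (M : ℕ) (G : Pol k 2), br p G = 0 ∧ br q G = 0 ∧ br G S = p ^ M * R := by
    intro R hR hR'
    obtain ⟨N, P, hP⟩ := hpp.ge1 R
    have h2 : pderiv 2 P = 0 := by
      apply hinj
      have h3 := bp P
      rw [← hP, br_mul, brpp, hR, mul_zero, mul_zero, add_zero] at h3
      have h4 : C (α : k) * p ≠ 0 := mul_ne_zero (by simpa using hα) hp0
      exact (mul_eq_zero.1 h3.symm).resolve_left h4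
    have h2' : pderiv 3 P = 0 := by
      apply hinj
      have h3 := bq P
      rw [← hP, br_mul, brqp, hR', mul_zero, mul_zero, add_zero, h2, map_zero, mul_zero,
        zero_add] at h3
      exact (mul_eq_zero.1 h3.symm).resolve_left (pow_ne_zero _ hp0)
    obtain ⟨Q, hQ, hQ2⟩ := exists_int (1 : Fin 4) P
    have h5 := hQ2 2 (by decide) h2
    have h6 := hQ2 3 (by decide) h2'
    refine ⟨k1 + N, aeval ![p, q, H, S] Q, ?_, ?_, ?_⟩
    · rw [bp, h5, map_zero, mul_zero]
    · rw [bq, h5, h6, map_zero, mul_zero, mul_zero, add_zero]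
    · rw [br_anti, br_aeval, Fin.sum_univ_four]
      simp only [Matrix.cons_val_zero, Matrix.cons_val_one, Matrix.cons_val]
      rw [h5, h6, hQ, ← hP, map_zero, br_anti S p, hpS, br_anti S q, hqS]
      ring
  -- derivative of powers
  have Dpow : ∀ n : ℕ, D (p ^ n) = n * p ^ (n - 1) * D p := by
    intro n
    rw [Derivation.leibniz_pow, smul_eq_mul, nsmul_eq_mul, mul_assoc]
  -- the relations of D
  have r1 : br (D p) q + br p (D q) = 0 := by
    have h := hD2 p q
    rw [hpq, map_zero, add_zero] at h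
    exact h.symm
  have r2 : br (D p) S + br p (D S) = 0 := by
    have h := hD2 p S
    rw [hpS, map_zero, add_zero] at h
    exact h.symm
  have r3 : br (D q) S + br q (D S) + p ^ k1 = k1 * p ^ (k1 - 1) * D p := by
    have h := hD2 q S
    rw [hqS, Dpow] at h
    exact h.symm
  -- step 1
  obtain ⟨N1, G1, hG1⟩ := I1 (D p)
  -- step 2
  have s2 : br p (p ^ N1 * D q - br G1 q) = 0 := by
    have e1 : br p G1 = -(p ^ N1 * D p) := by rw [br_anti, hG1]
    have e2 : br (p ^ N1) q = 0 := by rw [br_anti, brqp, neg_zero]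
    rw [br_sub, br_mul, brpp, jac, hpq, br_zero, e1, neg_br, mul_br, e2]
    linear_combination (p ^ N1) * r1
  obtain ⟨M2, G2, hG2, hG2'⟩ := I2 _ s2
  obtain ⟨N2, hN2⟩ : ∃ N2, N2 = M2 + N1 := ⟨_, rfl⟩
  obtain ⟨F2, hF2⟩ : ∃ F2, F2 = p ^ M2 * G1 + G2 := ⟨_, rfl⟩
  have a2 : br F2 p = p ^ N2 * D p := by
    have e1 : br (p ^ M2) p = 0 := by rw [br_anti, brpp, neg_zero]
    have e2 : br G2 p = 0 := by rw [br_anti, hG2, neg_zero]
    rw [hF2, add_br, mul_br, e1, e2, hG1, hN2, pow_add]
    ring
  have b2 : br F2 q = p ^ N2 * D q := by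
    have e1 : br (p ^ M2) q = 0 := by rw [br_anti, brqp, neg_zero]
    rw [hF2, add_br, mul_br, e1, hG2', hN2, pow_add]
    ring
  -- step 3
  have s3 : br p (p ^ N2 * (D S + S) - br F2 S) = 0 := by
    have e1 : br p F2 = -(p ^ N2 * D p) := by rw [br_anti, a2]
    have e2 : br (p ^ N2) S = 0 := by rw [br_anti, brSp, neg_zero]
    rw [br_sub, br_mul, brpp, jac, hpS, br_zero, e1, neg_br, mul_br, e2, br_add, hpS]
    linear_combination (p ^ N2) * r2
  have s4 : br q (p ^ N2 * (D S + S) - br F2 S) = 0 := by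
    have e1 : br q F2 = -(p ^ N2 * D q) := by rw [br_anti, b2]
    have e2 : br (p ^ N2) S = 0 := by rw [br_anti, brSp, neg_zero]
    rw [br_sub, br_mul, brqp, jac, hqS, e1, neg_br, mul_br, e2, br_add, hqS, br_pow, a2]
    linear_combination (p ^ N2) * r3
  obtain ⟨M3, G3, hG3, hG3', hG3''⟩ := I3 _ s3 s4
  obtain ⟨N3, hN3⟩ : ∃ N3, N3 = M3 + N2 := ⟨_, rfl⟩
  obtain ⟨F3, hF3⟩ : ∃ F3, F3 = p ^ M3 * F2 + G3 := ⟨_, rfl⟩
  have a3 : br F3 p = p ^ N3 * D p := by
    have e1 : br (p ^ M3) p = 0 := by rw [br_anti, brpp, neg_zero]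
    have e2 : br G3 p = 0 := by rw [br_anti, hG3, neg_zero]
    rw [hF3, add_br, mul_br, e1, e2, a2, hN3, pow_add]
    ring
  have b3 : br F3 q = p ^ N3 * D q := by
    have e1 : br (p ^ M3) q = 0 := by rw [br_anti, brqp, neg_zero]
    have e2 : br G3 q = 0 := by rw [br_anti, hG3', neg_zero]
    rw [hF3, add_br, mul_br, e1, e2, b2, hN3, pow_add]
    ring
  have c3 : br F3 S = p ^ N3 * (D S + S) := by
    have e1 : br (p ^ M3) S = 0 := by rw [br_anti, brSp, neg_zero]
    rw [hF3, add_br, mul_br, e1, hG3'', hN3, pow_add]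
    ring
  -- the component
  have hpN : p ^ N3 ∈ W (N3 * α) := by
    have := pow_mem_gr hy.toGr hpp.hg N3
    rwa [nsmul_eq_mul] at this
  obtain ⟨f, hf⟩ : ∃ f, f = cmp hy.toGr F3 (N3 * α) := ⟨_, rfl⟩
  have hfW : f ∈ W (N3 * α) := by rw [hf]; exact cmp_mem _ _ _
  have a4 : br f p = p ^ N3 * D p := by
    rw [hf]
    exact pick hy.toPGr hpp.hg (hy.mul _ _ _ _ hpN (hD1 _ _ hpp.hg)) a3
  have b4 : br f q = p ^ N3 * D q := by
    rw [hf]
    exact pick hy.toPGr hpp.hf (hy.mul _ _ _ _ hpN (hD1 _ _ hpp.hf)) b3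
  have c4 : br f S = p ^ N3 * (D S + S) := by
    rw [hf]
    exact pick hy.toPGr hpp.hS (hy.mul _ _ _ _ hpN
      (Submodule.add_mem _ (hD1 _ _ hpp.hS) hpp.hS)) c3
  refine ⟨N3, f, hfW, ?_⟩
  have hfH : br f H = C (((N3 * α : ℤ) : k)) * f := by
    rw [hy.HE _ f hfW, smul_eq_C_mul]
  -- the difference as a derivation
  obtain ⟨T, hT⟩ : ∃ T : Derivation k (Pol k 2) (Pol k 2), ∀ F, T F =
      p ^ (N3 + k1 + 1) * D F +
      (p ^ N3 * (C (1 / (α : k)) * (p ^ k1 * H - C (β : k) * q * S) * br p F +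
        p * S * br q F)) - p ^ k1 * (p * br f F - C (N3 : k) * f * br p F) := by
    refine ⟨p ^ (N3 + k1 + 1) • D + p ^ N3 • ((C (1 / (α : k)) * (p ^ k1 * H -
      C (β : k) * q * S)) • ad p + (p * S) • ad q) -
      p ^ k1 • (p • ad f - (C (N3 : k) * f) • ad p), ?_⟩
    intro F
    simp only [Derivation.sub_apply, Derivation.add_apply, Derivation.smul_apply, ad_apply,
      smul_eq_mul]
  have Tp : T p = 0 := by
    rw [hT, br_self, hqp, a4]
    ring
  have Tq : T q = 0 := by
    rw [hT, hpq, br_self, b4]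
    ring
  have TS : T S = 0 := by
    rw [hT, hpS, hqS, c4]
    ring
  have hC1 : C (1 / (α : k)) * C (α : k) = (1 : Pol k 2) := by
    rw [← C_mul, one_div, inv_mul_cancel₀ hα, C_1]
  have TH : T H = 0 := by
    rw [hT, hpH, hqH, hfH, hD3]
    have hC2 : (C (((N3 * α : ℤ) : k)) : Pol k 2) = C (N3 : k) * C (α : k) := by
      rw [← C_mul]
      push_cast
      rfl
    rw [hC2]
    linear_combination (p ^ N3 * p * (p ^ k1 * H - C (β : k) * q * S)) * hC1
  have Tae : ∀ P : MvPolynomial (Fin 4) k, T (aeval ![p, q, H, S] P) = 0 := by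
    intro P
    induction P using MvPolynomial.induction_on with
    | C a =>
      rw [aeval_C]
      exact T.map_algebraMap a
    | add P Q hP hQ => rw [map_add, map_add, hP, hQ, add_zero]
    | mul_X P j hP =>
      rw [map_mul, aeval_X, Derivation.leibniz, hP, smul_zero, add_zero]
      have : T (![p, q, H, S] j) = 0 := by
        fin_cases j
        · exact Tp
        · exact Tq
        · exact TH
        · exact TS
      rw [this, smul_zero]
  intro F
  obtain ⟨N, P, hP⟩ := hpp.ge1 F
  have h1 : T (p ^ N * F) = 0 := by rw [hP]; exact Tae P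
  rw [Derivation.leibniz, Derivation.leibniz_pow, Tp, smul_zero, smul_zero, smul_zero,
    add_zero, smul_eq_mul] at h1
  have h2 : T F = 0 := (mul_eq_zero.1 h1).resolve_left (pow_ne_zero _ hp0)
  rw [hT] at h2
  linear_combination h2

end Pool.Agent.H46.SYA
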